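import Pool.Agent.L5helper82.FF.Tan

/-!
# The dimension of the set of the relations which involve few linear forms
-/

set_option autoImplicit false

namespace Pool.Agent.L5helper82.FF

open Filter Module MvPolynomial Pool.Agent.Y787.GL Pool.Agent.TH519.GL Pool.Agent.Y787.FE Pool.Agent.Y787.HS
open Pool.Agent.L5helper3.FewForms
open Pool.Agent.Y787 (QC mem_QC HypC hyperplane hyperplane' Lt_one baker')

variable {Cc : Type} [Field Cc] [CharZero Cc] [IsAlgClosed Cc] [Uncountable Cc] {Lt : Submodule (QC Cc) Cc}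
  [HypC Lt]

/-- the universal form -/
noncomputable def UG (m D : ℕ) : MvPolynomial (Fin m ⊕ Sym (Fin m) D) Cc :=
  ∑ s, X (Sum.inr s) * rename Sum.inl (monomial (ex s) 1)

theorem aeval_mk {m D : ℕ} (y : Fin m → Cc) (c : Sym (Fin m) D → (QC Cc)) :
    aeval y (mk m D c) = ∑ s, (c s : Cc) * eval y (monomial (ex s) (1 : Cc)) := by
  rw [mk_apply, map_sum]
  refine Finset.sum_congr rfl fun s _ => ?_
  rw [aeval_monomial, eval_monomial, one_mul]
  rfl

theorem eval_UG {m D : ℕ} (y : Fin m → Cc) (c : Sym (Fin m) D → (QC Cc)) :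
    eval (Sum.elim y fun s => (c s : Cc)) (UG m D) = aeval y (mk m D c) := by
  rw [aeval_mk, UG, map_sum]
  refine Finset.sum_congr rfl fun s _ => ?_
  rw [map_mul, eval_X, eval_rename]
  rfl

theorem aeval_pderiv_mk {m D : ℕ} (y : Fin m → Cc) (c : Sym (Fin m) D → (QC Cc)) (i : Fin m) :
    aeval y (pderiv i (mk m D c)) =
      ∑ s, (c s : Cc) * eval y (pderiv i (monomial (ex s) (1 : Cc))) := by
  rw [mk_apply, map_sum, map_sum]
  refine Finset.sum_congr rfl fun s _ => ?_
  rw [pderiv_monomial, pderiv_monomial, aeval_monomial, eval_monomial, one_mul, map_mul,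
    map_natCast, mul_assoc]
  rfl

theorem eval_pderiv_inl {m D : ℕ} (y : Fin m → Cc) (c : Sym (Fin m) D → (QC Cc)) (i : Fin m) :
    eval (Sum.elim y fun s => (c s : Cc)) (pderiv (Sum.inl i) (UG m D)) =
      aeval y (pderiv i (mk m D c)) := by
  rw [aeval_pderiv_mk, UG, map_sum, map_sum]
  refine Finset.sum_congr rfl fun s _ => ?_
  rw [pderiv_mul, pderiv_X_of_ne (by simp), zero_mul, zero_add, pderiv_rename Sum.inl_injective,
    map_mul, eval_X, eval_rename]
  rfl

theorem eval_pderiv_inr {m D : ℕ} (y : Fin m → Cc) (c : Sym (Fin m) D → (QC Cc)) (t : Sym (Fin m) D) :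
    eval (Sum.elim y fun s => (c s : Cc)) (pderiv (Sum.inr t) (UG m D)) =
      eval y (monomial (ex t) (1 : Cc)) := by
  classical
  rw [UG, map_sum, map_sum, Finset.sum_eq_single t]
  · have h1 : pderiv (Sum.inr t) (rename (Sum.inl : Fin m → Fin m ⊕ Sym (Fin m) D)
        (monomial (ex t) (1 : Cc))) = 0 := by
      rw [pderiv_eq_zero_of_notMem_vars]
      intro h
      have := vars_rename Sum.inl (monomial (ex t) (1 : Cc)) h
      rw [Finset.mem_image] at this
      obtain ⟨i, -, hi⟩ := this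
      simp at hi
    rw [pderiv_mul, h1, mul_zero, add_zero, pderiv_X_self, one_mul, eval_rename]
    rfl
  · intro s _ hs
    have h1 : pderiv (Sum.inr t) (rename (Sum.inl : Fin m → Fin m ⊕ Sym (Fin m) D)
        (monomial (ex s) (1 : Cc))) = 0 := by
      rw [pderiv_eq_zero_of_notMem_vars]
      intro h
      have := vars_rename Sum.inl (monomial (ex s) (1 : Cc)) h
      rw [Finset.mem_image] at this
      obtain ⟨i, -, hi⟩ := this
      simp at hi
    rw [pderiv_mul, h1, mul_zero, add_zero, pderiv_X_of_ne (by simpa using hs), zero_mul, map_zero]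
  · intro h; exact absurd (Finset.mem_univ t) h

/-- `F` is not a polynomial in fewer linear forms: no nontrivial directional derivative vanishes. -/
def Essential {m : ℕ} (F : MvPolynomial (Fin m) (QC Cc)) : Prop :=
  ∀ a : Fin m → (QC Cc), ∑ i, C (a i) * pderiv i F = 0 → a = 0

/-- the condition on the linear forms `b` and the polynomial `F` -/
def Good {N m : ℕ} (D : ℕ) (l : Fin N → Cc) (b : Fin m → Fin N → (QC Cc))
    (F : MvPolynomial (Fin m) (QC Cc)) : Prop :=
  aeval (fun i => cmb l (b i)) F = 0 ∧ Essential F ∧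
    ∀ G : MvPolynomial (Fin m) (QC Cc), G.IsHomogeneous D → aeval (fun i => cmb l (b i)) G = 0 → G = 0

theorem Good.li {N m D : ℕ} (hD : 1 ≤ D) {l : Fin N → Cc} {b : Fin m → Fin N → (QC Cc)}
    {F : MvPolynomial (Fin m) (QC Cc)} (h : Good D l b F) : LinearIndependent (QC Cc) b := by
  rw [Fintype.linearIndependent_iff]
  intro a ha
  have h1 : (lin a ^ D).IsHomogeneous D := by
    have := (lin_homogeneous a).pow D
    rwa [one_mul] at this
  have h2 : lin a ^ D = 0 := by
    apply h.2.2 _ h1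
    rw [map_pow, aeval_lin]
    have h3 : cmb (fun i => cmb l (b i)) a = 0 := by
      have h4 : cmb (fun i => cmb l (b i)) a = cmb l (∑ i, a i • b i) := by
        rw [cmb, cmb]
        simp only [cmb, Finset.mul_sum, Finset.sum_apply, Pi.smul_apply, smul_eq_mul]
        rw [Finset.sum_comm]
        refine Finset.sum_congr rfl fun j _ => ?_
        push_cast
        rw [Finset.sum_mul]
        refine Finset.sum_congr rfl fun i _ => ?_
        ring
      rw [h4, ha, cmb_zero]
    rw [h3, zero_pow (by omega)]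
  have h3 : lin a = 0 := pow_eq_zero_iff (by omega) |>.1 h2
  intro i
  have h4 := congrArg (eval (Pi.single i 1)) h3
  rw [eval_lin, map_zero, Finset.sum_eq_single i] at h4
  · simpa using h4
  · intro j _ hj
    rw [Pi.single_eq_of_ne hj, mul_zero]
  · intro h; exact absurd (Finset.mem_univ i) h

theorem Good.li' {N m D : ℕ} {l : Fin N → Cc} {b : Fin m → Fin N → (QC Cc)}
    {F : MvPolynomial (Fin m) (QC Cc)} (hF : F.IsHomogeneous (D + 1)) (h : Good D l b F) :
    LinearIndependent (QC Cc) fun i => aeval (fun i => cmb l (b i)) (pderiv i F) := by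
  rw [Fintype.linearIndependent_iff]
  intro a ha
  have h1 : (∑ i, C (a i) * pderiv i F).IsHomogeneous D := by
    refine IsHomogeneous.sum _ _ _ fun i _ => ?_
    have h2 : (pderiv i F).IsHomogeneous D := by
      have := hF.pderiv (i := i)
      rwa [Nat.add_sub_cancel] at this
    have h3 := (isHomogeneous_C (Fin m) (a i)).mul h2
    rwa [zero_add] at h3
  have h2 : ∑ i, C (a i) * pderiv i F = 0 := by
    apply h.2.2 _ h1
    rw [map_sum, ← ha]
    refine Finset.sum_congr rfl fun i _ => ?_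
    rw [map_mul, aeval_C, Algebra.smul_def]
  exact congrFun (h.2.1 a h2)

section hd

variable {ι : Type} {𝒰 : Ultrafilter ι}
  {D : Derivation ℤ (Germ (𝒰 : Filter ι) Cc) (Germ (𝒰 : Filter ι) Cc)}

theorem HDsum' {κ : Type} (s : Finset κ) (f f' : κ → ι → Cc) (h : ∀ i, HD D (f i) (f' i)) :
    HD D (fun b => ∑ i ∈ s, f i b) (fun b => ∑ i ∈ s, f' i b) := by
  unfold HD at *
  have e : ∀ F : κ → ι → Cc, (fun b => ∑ i ∈ s, F i b) = ∑ i ∈ s, F i := by
    intro F
    funext b
    rw [Finset.sum_apply]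
  rw [e, e, map_sum, map_sum, map_sum]
  exact Finset.sum_congr rfl fun i _ => h i

end hd

/-- **The dimension theorem.** -/
theorem dim_exact {N m D q : ℕ} (hD : 1 ≤ D) (l : Fin N → Cc) (hl : LinearIndependent (QC Cc) l)
    (hl' : ∀ j, l j ∈ Lt) (hq : Fintype.card (Sym (Fin m) (D + 1)) < q + m)
    (φ : Fin q → (MvPolynomial (Fin N) (QC Cc) →ₗ[(QC Cc)] (QC Cc))) :
    ∃ P : MvPolynomial (Fin q) (QC Cc), P ≠ 0 ∧ ∀ (b : Fin m → Fin N → (QC Cc))
      (F : MvPolynomial (Fin m) (QC Cc)), F.IsHomogeneous (D + 1) → Good D l b F →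
      eval (fun k => φ k (sub b F)) P = 0 := by
  classical
  by_contra hcon
  push Not at hcon
  set ι : Type := {x : (Fin m → Fin N → (QC Cc)) × (Sym (Fin m) (D + 1) → (QC Cc)) //
    Good D l x.1 (mk m (D + 1) x.2)} with hι
  set f0 : ι → MvPolynomial (Fin N) (QC Cc) := fun x => sub x.1.1 (mk m (D + 1) x.1.2) with hf0
  set β : ι → Sym (Fin N) (D + 1) → (QC Cc) := fun x s => coeff (ex s) (f0 x) with hβ
  have hβ' : ∀ x, mk N (D + 1) (β x) = f0 x := by
    intro x
    exact mk_coeff (sub_homogeneous _ (mk_homogeneous _))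
  obtain ⟨𝒰, hgen⟩ := exists_ultra' (ι := ι) (fun x k => (φ k ∘ₗ mk N (D + 1)) (β x)) (by
    intro P hP
    obtain ⟨b, F, h1, h2, h3⟩ := hcon P hP
    refine ⟨⟨(b, fun s => coeff (ex s) F), ?_⟩, ?_⟩
    · rw [mk_coeff h1]
      exact h2
    · have h4 : ∀ k, (φ k ∘ₗ mk N (D + 1)) (β ⟨(b, fun s => coeff (ex s) F), by
          rw [mk_coeff h1]
          exact h2⟩) = φ k (sub b F) := by
        intro k
        rw [LinearMap.comp_apply, hβ', hf0]
        simp only
        rw [mk_coeff h1]
      simp only [h4]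
      exact h3)
  obtain ⟨Dr, g, hg, hD2, hDc, hφ⟩ := exists_system 𝒰 β (fun k => φ k ∘ₗ mk N (D + 1)) hgen
  set v : Fin q → ι → (Fin m → Fin N → (QC Cc)) := fun k x i j => g k (fun x => x.1.1 i j) x with hv
  set c' : Fin q → ι → (Sym (Fin m) (D + 1) → (QC Cc)) := fun k x s => g k (fun x => x.1.2 s) x with hc'
  set β1 : Fin q → ι → (Sym (Fin N) (D + 1) → (QC Cc)) := fun k x s => g k (fun x => β x s) x with hβ1
  -- the derivative of the value at a constant point
  have hmain : ∀ (z : Fin N → Cc) (k : Fin q),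
      HD (Dr k) (fun x : ι => aeval (fun i => cmb z (x.1.1 i)) (mk m (D + 1) x.1.2))
        (fun x => aeval z (Psi (Cc := Cc) x.1.1 (mk m (D + 1) x.1.2) (v k x, c' k x))) := by
    intro z k
    have h1 := HDeval (hD2 k)
      (fun (x : ι) => (Sum.elim (fun i => cmb z (x.1.1 i)) (fun s => (x.1.2 s : Cc)) :
        Fin m ⊕ Sym (Fin m) (D + 1) → Cc))
      (fun (x : ι) => (Sum.elim (fun i => cmb z (v k x i)) (fun s => (c' k x s : Cc)) :
        Fin m ⊕ Sym (Fin m) (D + 1) → Cc)) (by
        intro i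
        cases i with
        | inl i => exact hDc z k (fun x => x.1.1 i)
        | inr s => exact hg k (fun x => x.1.2 s)) (UG m (D + 1))
    have e1 : (fun x : ι => eval (Sum.elim (fun i => cmb z (x.1.1 i)) (fun s => (x.1.2 s : Cc)) :
        Fin m ⊕ Sym (Fin m) (D + 1) → Cc) (UG m (D + 1))) =
        fun x : ι => aeval (fun i => cmb z (x.1.1 i)) (mk m (D + 1) x.1.2) := by
      funext x
      exact eval_UG _ _
    have e2 : (fun x : ι => ∑ i, eval (Sum.elim (fun i => cmb z (x.1.1 i))
          (fun s => (x.1.2 s : Cc)) : Fin m ⊕ Sym (Fin m) (D + 1) → Cc)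
          (pderiv i (UG m (D + 1))) * (Sum.elim (fun i => cmb z (v k x i))
            (fun s => (c' k x s : Cc)) : Fin m ⊕ Sym (Fin m) (D + 1) → Cc) i) =
        fun x => aeval z (Psi (Cc := Cc) x.1.1 (mk m (D + 1) x.1.2) (v k x, c' k x)) := by
      funext x
      rw [Fintype.sum_sum_type, aeval_Psi]
      congr 1
      · refine Finset.sum_congr rfl fun i _ => ?_
        rw [eval_pderiv_inl, Sum.elim_inl]
      · rw [aeval_mk]
        refine Finset.sum_congr rfl fun s _ => ?_
        rw [eval_pderiv_inr, Sum.elim_inr, mul_comm]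
    rw [e1, e2] at h1
    exact h1
  have hbeta : ∀ (z : Fin N → Cc) (k : Fin q),
      HD (Dr k) (fun x : ι => aeval z (f0 x)) (fun x => aeval z (mk N (D + 1) (β1 k x))) := by
    intro z k
    have h1 := HDsum' (D := Dr k) (Finset.univ : Finset (Sym (Fin N) (D + 1)))
      (fun s (x : ι) => eval z (monomial (ex s) (1 : Cc)) * ((β x s : (QC Cc)) : Cc)) _
      (fun s => (HDc (hD2 k) (eval z (monomial (ex s) (1 : Cc)))).mul (hg k (fun x => β x s)))
    have e1 : (fun x : ι => ∑ s, eval z (monomial (ex s) (1 : Cc)) * ((β x s : (QC Cc)) : Cc)) =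
        fun x => aeval z (f0 x) := by
      funext x
      rw [← hβ' x, aeval_mk]
      exact Finset.sum_congr rfl fun s _ => mul_comm _ _
    have e2 : (fun x : ι => ∑ s, (eval z (monomial (ex s) (1 : Cc)) *
        ((g k (fun x => β x s) x : (QC Cc)) : Cc) + ((β x s : (QC Cc)) : Cc) * 0)) =
        fun x => aeval z (mk N (D + 1) (β1 k x)) := by
      funext x
      rw [aeval_mk]
      refine Finset.sum_congr rfl fun s _ => ?_
      rw [mul_zero, add_zero, mul_comm]
    have h2 : HD (Dr k) (fun x : ι => ∑ s, eval z (monomial (ex s) (1 : Cc)) * ((β x s : (QC Cc)) : Cc))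
        (fun x : ι => ∑ s, (eval z (monomial (ex s) (1 : Cc)) *
        ((g k (fun x => β x s) x : (QC Cc)) : Cc) + ((β x s : (QC Cc)) : Cc) * 0)) := h1
    rw [e1, e2] at h2
    exact h2
  have hR1 : ∀ᶠ x in (𝒰 : Filter ι), ∀ k, aeval l
      (Psi (Cc := Cc) x.1.1 (mk m (D + 1) x.1.2) (v k x, c' k x)) = 0 := by
    rw [Filter.eventually_all]
    intro k
    exact HD.congr (hmain l k) (HDc (hD2 k) 0) (Filter.Eventually.of_forall fun x => x.2.1)
  have hR2 : ∀ᶠ x in (𝒰 : Filter ι), ∀ k, ∀ z : Fin N → Fin (D + 1 + 1),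
      aeval (fun j => ((z j : ℕ) : Cc)) (mk N (D + 1) (β1 k x)) =
      aeval (fun j => ((z j : ℕ) : Cc)) (Psi (Cc := Cc) x.1.1 (mk m (D + 1) x.1.2) (v k x, c' k x)) := by
    rw [Filter.eventually_all]
    intro k
    rw [Filter.eventually_all]
    intro z
    exact HD.congr (hbeta _ k) (hmain _ k) (Filter.Eventually.of_forall fun x => aeval_sub _ _ _)
  obtain ⟨x, ⟨hx1, hx2⟩, hx3⟩ := ((hR1.and hR2).and hφ).exists
  have hx4 : ∀ k, mk N (D + 1) (β1 k x) =
      Psi (Cc := Cc) x.1.1 (mk m (D + 1) x.1.2) (v k x, c' k x) := by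
    intro k
    refine eq_of_grid (D := D + 1) (mk_homogeneous _).totalDegree_le
      (Psi_homogeneous _ (mk_homogeneous _) _).totalDegree_le fun z => ?_
    have h1 := hx2 k z
    have h2 : ∀ p : MvPolynomial (Fin N) (QC Cc), aeval (fun j => ((z j : ℕ) : Cc)) p =
        ((eval (fun j => ((z j : ℕ) : (QC Cc))) p : (QC Cc)) : Cc) := by
      intro p
      have h3 := aeval_algebraMap_apply (A := (QC Cc)) Cc (fun j => ((z j : ℕ) : (QC Cc))) p
      have h5 : aeval (fun j => ((z j : ℕ) : (QC Cc))) p = eval (fun j => ((z j : ℕ) : (QC Cc))) p := by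
        rw [← coe_aeval_eq_eval]
        rfl
      rw [h5] at h3
      have h4 : (algebraMap (QC Cc) Cc ∘ fun j => ((z j : ℕ) : (QC Cc))) = fun j => ((z j : ℕ) : Cc) := by
        funext j
        rw [Function.comp_apply, map_natCast]
      rw [h4] at h3
      exact h3
    rw [h2, h2] at h1
    exact Subtype.ext h1
  have hli : LinearIndependent (QC Cc) fun k => mk N (D + 1) (β1 k x) := by
    rw [Fintype.linearIndependent_iff]
    intro p hp i
    have h1 := congrArg (φ i) hp
    rw [map_sum, map_zero] at h1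
    have h2 : ∀ k, φ i (mk N (D + 1) (β1 k x)) = if i = k then 1 else 0 := fun k => hx3 i k
    simp only [map_smul, h2, smul_eq_mul, mul_ite, mul_one, mul_zero, Finset.sum_ite_eq,
      Finset.mem_univ, if_true] at h1
    exact h1
  have h1 := tangent l hl hl' (mk m (D + 1) x.1.2) (mk_homogeneous _) x.1.1 (x.2.li hD)
    (x.2.li' (mk_homogeneous _)) (fun k => mk N (D + 1) (β1 k x)) hli
    (fun k => (v k x, c' k x)) hx4 (fun k => by rw [hx4]; exact hx1 k)
  omega

end Pool.Agent.L5helper82.FF
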